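import Pool.Agent.helper99.ZR.Spec

set_option autoImplicit false
set_option linter.unusedVariables false

namespace Pool.Agent.ZR

open Finset
open Pool.Agent.helper32.Cant
open Pool.Agent.GA (nrm chi ch St sg flp Psi rc ph pot rpot far nc gf ncs gfs good mj om pick pat et kap mult)
open scoped ENNReal

lemma FRO_iff (q M K c : ℕ) : q / M = c ↔ q / (M * K) = c / K ∧ q % (M * K) / M = c % K := by
  rw [← Nat.div_div_eq_div_mul, Nat.mod_mul_right_div_self]
  constructor
  · rintro rfl; exact ⟨rfl, rfl⟩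
  · rintro ⟨h1, h2⟩
    rw [← Nat.div_add_mod (q / M) K, h1, h2, Nat.div_add_mod]

lemma FRO_img {α β : Type} [DecidableEq β] (T : Finset α) (g : α → β) (f : β → ℝ)
    (hf : ∀ x, 0 ≤ f x) : ∑ x ∈ T.image g, f x ≤ ∑ t ∈ T, f (g t) := by
  rw [← Finset.sum_fiberwise_of_maps_to (s := T) (t := T.image g) (g := g)
    (fun x hx => Finset.mem_image_of_mem g hx) (fun t => f (g t))]
  refine Finset.sum_le_sum fun x hx => ?_
  obtain ⟨t, ht, htx⟩ := Finset.mem_image.mp hx
  have h1 : f (g t) ≤ ∑ y ∈ T with g y = x, f (g y) :=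
    Finset.single_le_sum (f := fun y => f (g y)) (fun y _ => hf _)
      (Finset.mem_filter.mpr ⟨ht, htx⟩)
  rw [htx] at h1
  exact h1

/-- the part of `E` with first digit `d` -/
def FRO_E (n : ℕ) (E : Finset ℕ) (d : ℕ) : Finset ℕ :=
  (Finset.range (3 ^ n)).filter (fun q => q + d * 3 ^ n ∈ E)

lemma FRO_sum (n : ℕ) (E : Finset ℕ) (aa : ℕ → ℕ → ℝ) (d : ℕ) (P : ℕ → Prop) [DecidablePred P] :
    ∑ q ∈ E with (q / 3 ^ n = d ∧ P (q % 3 ^ n)), aa (q / 3 ^ n) (q % 3 ^ n) =
      ∑ q ∈ FRO_E n E d with P q, aa d q := by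
  have h3 : 0 < 3 ^ n := by positivity
  refine Finset.sum_nbij' (fun q => q % 3 ^ n) (fun q => q + d * 3 ^ n) ?_ ?_ ?_ ?_ ?_
  · intro q hq
    obtain ⟨hq1, hq2, hq3⟩ := Finset.mem_filter.mp hq
    refine Finset.mem_filter.mpr ⟨Finset.mem_filter.mpr ⟨Finset.mem_range.mpr (Nat.mod_lt _ h3), ?_⟩,
      hq3⟩
    have : q % 3 ^ n + d * 3 ^ n = q := by
      rw [← hq2, mul_comm, add_comm]; exact Nat.div_add_mod q (3 ^ n)
    rw [this]; exact hq1
  · intro q hq
    obtain ⟨hq1, hq2⟩ := Finset.mem_filter.mp hq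
    obtain ⟨hq3, hq4⟩ := Finset.mem_filter.mp hq1
    have hlt := Finset.mem_range.mp hq3
    refine Finset.mem_filter.mpr ⟨hq4, ?_, ?_⟩
    · rw [Nat.add_mul_div_right _ _ h3, Nat.div_eq_of_lt hlt, zero_add]
    · rw [Nat.add_mul_mod_self_right, Nat.mod_eq_of_lt hlt]; exact hq2
  · intro q hq
    obtain ⟨hq1, hq2, hq3⟩ := Finset.mem_filter.mp hq
    rw [← hq2, mul_comm, add_comm]; exact Nat.div_add_mod q (3 ^ n)
  · intro q hq
    obtain ⟨hq1, hq2⟩ := Finset.mem_filter.mp hq
    obtain ⟨hq3, hq4⟩ := Finset.mem_filter.mp hq1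
    have hlt := Finset.mem_range.mp hq3
    rw [Nat.add_mul_mod_self_right, Nat.mod_eq_of_lt hlt]
  · intro q hq
    obtain ⟨hq1, hq2, hq3⟩ := Finset.mem_filter.mp hq
    rw [hq2]

theorem FRO : FRO_stmt := by
  intro n
  induction n with
  | zero =>
    intro ψ hψ E hE
    by_cases h0 : 0 ∈ E
    · have hE0 : E = {0} := by
        ext q
        rw [Finset.mem_singleton]
        constructor
        · intro hq
          have := hE q hq
          simpa using this
        · rintro rfl; exact h0
      refine ⟨fun q => if q = 0 then ψ 0 else 0, {(0, 0)}, ?_, ?_, ?_, ?_, ?_, ?_⟩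
      · intro q
        simp only
        split_ifs
        · exact (hψ 0).le
        · exact le_rfl
      · intro q hq
        have : q ≠ 0 := by rintro rfl; exact hq h0
        simp [this]
      · intro i hi c
        have hi0 : i = 0 := by omega
        subst hi0
        calc ∑ q ∈ E with q / 3 ^ (0 - 0) = c, (if q = 0 then ψ 0 else 0)
            ≤ ∑ q ∈ E, (if q = 0 then ψ 0 else 0) := by
              refine Finset.sum_le_sum_of_subset_of_nonneg (Finset.filter_subset _ _) ?_
              intro q _ _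
              split_ifs
              · exact (hψ 0).le
              · exact le_rfl
          _ = ψ 0 := by rw [hE0]; simp
      · intro s hs
        rw [Finset.mem_singleton] at hs
        rw [hs]
      · intro q hq
        have hq0 : q = 0 := by
          have := hE q hq
          simpa using this
        exact ⟨(0, 0), Finset.mem_singleton_self _, by rw [hq0]; simp⟩
      · rw [hE0]; simp
    · have hE0 : E = ∅ := by
        ext q
        constructor
        · intro hq
          have := hE q hq
          have hq0 : q = 0 := by simpa using this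
          rw [hq0] at hq
          exact absurd hq h0
        · intro hq; exact absurd hq (Finset.notMem_empty q)
      refine ⟨fun _ => 0, ∅, fun _ => le_rfl, fun _ _ => rfl, ?_, ?_, ?_, ?_⟩
      · intro i _ c
        simp only [Finset.sum_const_zero]
        exact (hψ i).le
      · intro s hs; exact absurd hs (Finset.notMem_empty s)
      · intro q hq; rw [hE0] at hq; exact absurd hq (Finset.notMem_empty q)
      · simp
  | succ n ih =>
    intro ψ hψ E hE
    have h3 : 0 < 3 ^ n := by positivity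
    have ih' : ∀ d, _ := fun d => ih (fun i => ψ (i + 1)) (fun i => hψ (i + 1)) (FRO_E n E d)
      (fun q hq => Finset.mem_range.mp (Finset.mem_filter.mp hq).1)
    choose aa AA h1 h2 h3' h4 h5 h6 using ih'
    have hdig : ∀ q ∈ E, q / 3 ^ n < 3 := by
      intro q hq
      have := hE q hq
      rw [pow_succ] at this
      exact Nat.div_lt_of_lt_mul this
    set a' : ℕ → ℝ := fun q => aa (q / 3 ^ n) (q % 3 ^ n) with ha'
    have ha0 : ∀ q, 0 ≤ a' q := fun q => h1 _ _
    have haE : ∀ q, q ∉ E → a' q = 0 := by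
      intro q hq
      apply h2
      intro hmem
      have := (Finset.mem_filter.mp hmem).2
      have e : q % 3 ^ n + q / 3 ^ n * 3 ^ n = q := by
        rw [mul_comm, add_comm]; exact Nat.div_add_mod q (3 ^ n)
      rw [e] at this
      exact hq this
    -- windows of positive level
    have hwin : ∀ i ≤ n, ∀ c, ∑ q ∈ E with q / 3 ^ (n - i) = c, a' q ≤ ψ (i + 1) := by
      intro i hi c
      have hN : 3 ^ (n - i) * 3 ^ i = 3 ^ n := by
        rw [← pow_add, Nat.sub_add_cancel hi]
      have hset : (E.filter (fun q => q / 3 ^ (n - i) = c)) =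
          E.filter (fun q => q / 3 ^ n = c / 3 ^ i ∧ (q % 3 ^ n) / 3 ^ (n - i) = c % 3 ^ i) := by
        refine Finset.filter_congr fun q _ => ?_
        rw [FRO_iff q (3 ^ (n - i)) (3 ^ i) c, hN]
      rw [hset]
      have := FRO_sum n E aa (c / 3 ^ i) (fun x => x / 3 ^ (n - i) = c % 3 ^ i)
      simp only [ha']
      rw [this]
      exact h3' _ i hi _
    -- the total
    have htot : ∑ q ∈ E, a' q = ∑ d ∈ Finset.range 3, ∑ q ∈ FRO_E n E d, aa d q := by
      rw [← Finset.sum_fiberwise_of_maps_to (s := E) (t := Finset.range 3) (g := fun q => q / 3 ^ n)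
        (fun q hq => Finset.mem_range.mpr (hdig q hq))]
      refine Finset.sum_congr rfl fun d _ => ?_
      have := FRO_sum n E aa d (fun _ => True)
      simp only [and_true, Finset.filter_true] at this
      exact this
    by_cases hS : ∑ q ∈ E, a' q ≤ ψ 0
    · let T : Finset (Σ _ : ℕ, ℕ × ℕ) := (Finset.range 3).sigma AA
      let g : (Σ _ : ℕ, ℕ × ℕ) → ℕ × ℕ := fun s => (s.2.1 + 1, s.1 * 3 ^ s.2.1 + s.2.2)
      refine ⟨a', T.image g, ha0, haE, ?_, ?_, ?_, ?_⟩
      · intro i hi c
        rcases Nat.eq_zero_or_pos i with h0 | hpos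
        · subst h0
          refine le_trans ?_ hS
          exact Finset.sum_le_sum_of_subset_of_nonneg (Finset.filter_subset _ _)
            (fun q _ _ => ha0 q)
        · obtain ⟨j, rfl⟩ : ∃ j, i = j + 1 := ⟨i - 1, by omega⟩
          have := hwin j (by omega) c
          rw [Nat.add_sub_add_right]
          exact this
      · intro s hs
        obtain ⟨t, ht, rfl⟩ := Finset.mem_image.mp hs
        obtain ⟨_, ht2⟩ := Finset.mem_sigma.mp ht
        have := h4 t.1 t.2 ht2
        simp only [g]
        omega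
      · intro q hq
        have hqE : q % 3 ^ n ∈ FRO_E n E (q / 3 ^ n) := by
          refine Finset.mem_filter.mpr ⟨Finset.mem_range.mpr (Nat.mod_lt _ h3), ?_⟩
          have e : q % 3 ^ n + q / 3 ^ n * 3 ^ n = q := by
            rw [mul_comm, add_comm]; exact Nat.div_add_mod q (3 ^ n)
          rw [e]; exact hq
        obtain ⟨s, hs, hs2⟩ := h5 (q / 3 ^ n) (q % 3 ^ n) hqE
        have hs1 := h4 _ s hs
        refine ⟨g ⟨q / 3 ^ n, s⟩, Finset.mem_image.mpr ⟨⟨q / 3 ^ n, s⟩,
          Finset.mem_sigma.mpr ⟨Finset.mem_range.mpr (hdig q hq), hs⟩, rfl⟩, ?_⟩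
        simp only [g]
        rw [Nat.add_sub_add_right]
        have hN : 3 ^ (n - s.1) * 3 ^ s.1 = 3 ^ n := by
          rw [← pow_add, Nat.sub_add_cancel hs1]
        rw [← hN, Nat.mod_mul_right_div_self] at hs2
        have h7 : q / 3 ^ n = q / 3 ^ (n - s.1) / 3 ^ s.1 := by
          rw [Nat.div_div_eq_div_mul, hN]
        rw [h7, ← hs2, mul_comm]
        exact (Nat.div_add_mod _ _).symm
      · calc ∑ s ∈ T.image g, ψ s.1 ≤ ∑ t ∈ T, ψ (g t).1 :=
              FRO_img T g (fun s => ψ s.1) (fun s => (hψ s.1).le)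
          _ = ∑ d ∈ Finset.range 3, ∑ s ∈ AA d, ψ (s.1 + 1) := by
              simp only [T, g]
              rw [Finset.sum_sigma]
          _ ≤ ∑ d ∈ Finset.range 3, ∑ q ∈ FRO_E n E d, aa d q :=
              Finset.sum_le_sum fun d _ => h6 d
          _ = ∑ q ∈ E, a' q := htot.symm
    · push Not at hS
      set S := ∑ q ∈ E, a' q with hSdef
      have hSpos : 0 < S := (hψ 0).trans hS
      have hr0 : 0 ≤ ψ 0 / S := div_nonneg (hψ 0).le hSpos.le
      have hr1 : ψ 0 / S ≤ 1 := (div_le_one hSpos).mpr hS.le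
      have hmul : ψ 0 / S * S = ψ 0 := div_mul_cancel₀ _ hSpos.ne'
      refine ⟨fun q => ψ 0 / S * a' q, {(0, 0)}, ?_, ?_, ?_, ?_, ?_, ?_⟩
      · intro q; exact mul_nonneg hr0 (ha0 q)
      · intro q hq; simp only; rw [haE q hq, mul_zero]
      · intro i hi c
        rw [← Finset.mul_sum]
        rcases Nat.eq_zero_or_pos i with h0 | hpos
        · subst h0
          calc ψ 0 / S * ∑ q ∈ E with q / 3 ^ (n + 1 - 0) = c, a' q ≤ ψ 0 / S * S := by
                refine mul_le_mul_of_nonneg_left ?_ hr0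
                exact Finset.sum_le_sum_of_subset_of_nonneg (Finset.filter_subset _ _)
                  (fun q _ _ => ha0 q)
            _ = ψ 0 := hmul
        · obtain ⟨j, rfl⟩ : ∃ j, i = j + 1 := ⟨i - 1, by omega⟩
          have hw := hwin j (by omega) c
          rw [Nat.add_sub_add_right]
          have h8 : 0 ≤ ∑ q ∈ E with q / 3 ^ (n - j) = c, a' q :=
            Finset.sum_nonneg fun q _ => ha0 q
          calc ψ 0 / S * ∑ q ∈ E with q / 3 ^ (n - j) = c, a' q
              ≤ 1 * ∑ q ∈ E with q / 3 ^ (n - j) = c, a' q :=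
                mul_le_mul_of_nonneg_right hr1 h8
            _ = ∑ q ∈ E with q / 3 ^ (n - j) = c, a' q := one_mul _
            _ ≤ ψ (j + 1) := hw
      · intro s hs
        rw [Finset.mem_singleton] at hs
        rw [hs]; exact Nat.zero_le _
      · intro q hq
        refine ⟨(0, 0), Finset.mem_singleton_self _, ?_⟩
        simp only [Nat.sub_zero]
        exact Nat.div_eq_of_lt (hE q hq)
      · rw [Finset.sum_singleton, ← Finset.mul_sum, hmul]

end Pool.Agent.ZR
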